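import Pool.Agent.H86.OC.ROKa
import Pool.Agent.H98.OCM.Defs

/-!
# OCV: the rows on an extension of the space
-/

set_option autoImplicit false

namespace Pool.OCV.LM20

open Finset Real
open Pool.Agent.H49.Ent Pool.Agent.H32.Dense Pool.STK Pool.KAF
open Pool.OCM
open Pool.OC.RS (H_push cond_push law_push)

section

variable {Ω R θ : Type} [Fintype Ω] [Fintype R] {c : ℕ}

theorem rowHV_ext {Q' : Ω → ℝ} {Q : R → ℝ} {w : Ω → R} (h : ∀ v, law Q' w v = Q v)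
    (N : R → Fin c → ℤ) (τ : R → θ) (κ K : ℕ) (v : Ω) :
    rowHV Q' (fun v => N (w v)) κ K (fun v => τ (w v)) v = rowHV Q N κ K τ (w v) := by
  unfold rowHV
  exact H_push (fun ω => cond_push h (fun ω => (rc N (κ + K) ω, τ ω)) _ ω) (rc N κ)

theorem low_ext {Q' : Ω → ℝ} {Q : R → ℝ} {w : Ω → R} (h : ∀ v, law Q' w v = Q v)
    (N : R → Fin c → ℤ) (τ : R → θ) (κ K : ℕ) (D : ℝ) (v : Ω) :
    low Q' (fun v => N (w v)) (fun v => τ (w v)) κ K D v ↔ low Q N τ κ K D (w v) := by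
  unfold low
  rw [rowHV_ext h]

theorem low_sh_ext {Q' : Ω → ℝ} {Q : R → ℝ} {w : Ω → R} (h : ∀ v, law Q' w v = Q v) {X : ℕ}
    (N : R → Fin c → ℤ) (u : Fin c → Fin (2 ^ X)) (τ : R → θ) (κ K : ℕ) (D : ℝ) (v : Ω) :
    low Q' (sh (fun v => N (w v)) u) (fun v => τ (w v)) κ K D v ↔
      low Q (sh N u) τ κ K D (w v) :=
  low_ext h (sh N u) τ κ K D v

theorem law_ext {Q' : Ω → ℝ} {Q : R → ℝ} {w : Ω → R} (h : ∀ v, law Q' w v = Q v)
    (N : R → Fin c → ℤ) (τ : R → θ) :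
    law Q' (fun v => (N (w v), τ (w v))) = law Q (fun v => (N v, τ v)) := by
  funext s
  exact law_push h (fun v => (N v, τ v)) s

end

end Pool.OCV.LM20
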